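import Pool.Agent.H95.CG.Targets

/-!
# (KE) the integral at the central point
-/

set_option autoImplicit false

open MeasureTheory Set Filter
open scoped ENNReal

namespace Pool.Agent.H69.CG

open Pool.Agent.H95.CG Pool.Agent.H25.HK

/-- a power against the exponential function -/
theorem pow_exp (n : ℕ) (hn : 1 ≤ n) (x : ℝ) (hx : 1 ≤ x) :
    x ^ n * Real.exp (-Real.pi * (x - 1)) ≤ (n : ℝ) ^ n := by
  have hn0 : (0 : ℝ) < n := by exact_mod_cast hn
  have h1 : x / n ≤ Real.exp (Real.pi * (x - 1) / n) := by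
    have h2 := Real.add_one_le_exp (Real.pi * (x - 1) / n)
    have h3 : (x - 1) / n ≤ Real.pi * (x - 1) / n := by
      refine div_le_div_of_nonneg_right ?_ hn0.le
      nlinarith [Real.pi_gt_three]
    have h4 : x / n ≤ (x - 1) / n + 1 := by
      rw [div_add_one hn0.ne']
      refine div_le_div_of_nonneg_right ?_ hn0.le
      have : (1 : ℝ) ≤ n := by exact_mod_cast hn
      linarith
    linarith
  have h5 : (x / n) ^ n ≤ Real.exp (Real.pi * (x - 1)) := by
    have h6 := pow_le_pow_left₀ (by positivity) h1 n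
    rw [← Real.exp_nat_mul] at h6
    have h7 : (n : ℝ) * (Real.pi * (x - 1) / n) = Real.pi * (x - 1) := by
      field_simp
    rwa [h7] at h6
  have h8 : x ^ n ≤ (n : ℝ) ^ n * Real.exp (Real.pi * (x - 1)) := by
    rw [div_pow, div_le_iff₀ (by positivity)] at h5
    linarith
  calc x ^ n * Real.exp (-Real.pi * (x - 1))
      ≤ ((n : ℝ) ^ n * Real.exp (Real.pi * (x - 1))) * Real.exp (-Real.pi * (x - 1)) :=
        mul_le_mul_of_nonneg_right h8 (Real.exp_pos _).le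
    _ = (n : ℝ) ^ n := by
        rw [mul_assoc, ← Real.exp_add]
        have : Real.pi * (x - 1) + -Real.pi * (x - 1) = 0 := by ring
        rw [this, Real.exp_zero, mul_one]

/-- the integral of `c / t` -/
theorem lint1 (c m : ℝ) (hc : 0 ≤ c) (hm : 1 ≤ m) :
    ∫⁻ t in Ioc (1 : ℝ) m, ENNReal.ofReal (c * t⁻¹) = ENNReal.ofReal (c * Real.log m) := by
  have h0 : (0 : ℝ) < 1 := one_pos
  have hi : IntervalIntegrable (fun t : ℝ => c * t⁻¹) volume 1 m := by
    refine (intervalIntegral.intervalIntegrable_inv ?_ continuousOn_id).const_mul c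
    intro x hx
    rw [uIcc_of_le hm] at hx
    exact (lt_of_lt_of_le h0 hx.1).ne'
  have hi' := (intervalIntegrable_iff_integrableOn_Ioc_of_le hm).1 hi
  rw [← ofReal_integral_eq_lintegral_ofReal hi' ?_]
  · rw [← intervalIntegral.integral_of_le hm, intervalIntegral.integral_const_mul,
      integral_inv_of_pos h0 (lt_of_lt_of_le h0 hm), div_one]
  · refine (ae_restrict_iff' measurableSet_Ioc).2 (Eventually.of_forall fun t ht => ?_)
    have : 0 < t := lt_trans h0 ht.1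
    exact mul_nonneg hc (inv_nonneg.2 this.le)

/-- the integral of `c t^(-3/2)` -/
theorem lint2 (c m : ℝ) (hc : 0 ≤ c) (hm : 1 ≤ m) :
    ∫⁻ t in Ioi m, ENNReal.ofReal (c * t ^ (-(3 / 2) : ℝ)) =
      ENNReal.ofReal (c * (2 * m ^ (-(1 / 2) : ℝ))) := by
  have h0 : (0 : ℝ) < m := lt_of_lt_of_le one_pos hm
  have hlt : (-(3 / 2) : ℝ) < -1 := by norm_num
  have hi : IntegrableOn (fun t : ℝ => c * t ^ (-(3 / 2) : ℝ)) (Ioi m) :=
    (integrableOn_Ioi_rpow_of_lt hlt h0).const_mul c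
  rw [← ofReal_integral_eq_lintegral_ofReal hi ?_]
  · rw [integral_const_mul, integral_Ioi_rpow_of_lt hlt h0]
    congr 2
    have : (-(3 / 2) : ℝ) + 1 = -(1 / 2) := by norm_num
    rw [this]
    ring
  · refine (ae_restrict_iff' measurableSet_Ioi).2 (Eventually.of_forall fun t ht => ?_)
    have : 0 < t := lt_trans h0 ht
    exact mul_nonneg hc (Real.rpow_nonneg this.le _)

theorem pf_ke (hLL : T_LL) (hTA : T_TA) (_hMI : T_MI) : T_KE := by
  intro n hn
  obtain ⟨C₁, hC₁, hLL⟩ := hLL n hn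
  obtain ⟨C₂, hC₂, hTA⟩ := hTA n
  have hn0 : (0 : ℝ) < n := by exact_mod_cast hn
  have hn0' : (n : ℝ) ≠ 0 := hn0.ne'
  refine ⟨C₁ * n + 2 * (C₂ * (n : ℝ) ^ n), by positivity, ?_⟩
  intro ι _ _ S hcard hS hdet a b ha hb
  have ha0 : 0 < a := ha.1
  have hb0 : 0 < b := hb.1
  set α : ℝ := a ^ (-(n : ℝ) / 4) with hα
  set β : ℝ := b ^ (-(n : ℝ) / 4) with hβ
  have hα0 : 0 < α := Real.rpow_pos_of_pos ha0 _
  have hβ0 : 0 < β := Real.rpow_pos_of_pos hb0 _
  set A : ℝ := α + β with hA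
  have hA0 : 0 < A := add_pos hα0 hβ0
  set T : ℝ := a ^ (-(n : ℝ) / 2) with hT
  have hT0 : 0 < T := Real.rpow_pos_of_pos ha0 _
  have hTα : T = α ^ 2 := by
    rw [hT, hα, ← Real.rpow_natCast, ← Real.rpow_mul ha0.le]
    congr 1
    push_cast
    ring
  have hTs : T ^ (1 / 2 : ℝ) = α := by
    rw [hTα, ← Real.rpow_natCast, ← Real.rpow_mul hα0.le]
    norm_num
  set m : ℝ := max 1 T with hm
  have hm1 : 1 ≤ m := le_max_left _ _
  have hm0 : 0 < m := lt_of_lt_of_le one_pos hm1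
  have hmT : T ≤ m := le_max_right _ _
  unfold PI
  rw [← Ioc_union_Ioi_eq_Ioi hm1, hcard]
  refine (lintegral_union_le _ _ _).trans ?_
  -- first part
  have p1 : ∫⁻ t in Ioc (1 : ℝ) m, ENNReal.ofReal ((ts S (t ^ (2 / (n : ℝ))) - 1) *
      t ^ (-(1 / 2) : ℝ)) ≤ ENNReal.ofReal (2 * C₁ * A * Real.log m) := by
    rw [← lint1 (2 * C₁ * A) m (by positivity) hm1]
    refine setLIntegral_mono' measurableSet_Ioc fun t ht => ENNReal.ofReal_le_ofReal ?_
    have ht0 : 0 < t := lt_trans one_pos ht.1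
    have htT : t ≤ T := by
      rcases le_total 1 T with h | h
      · rw [hm, max_eq_right h] at ht
        exact ht.2
      · rw [hm, max_eq_left h] at ht
        exact absurd ht.1 (not_lt.2 ht.2)
    set u : ℝ := t ^ (2 / (n : ℝ)) with hu
    have hu0 : 0 < u := Real.rpow_pos_of_pos ht0 _
    have hu1 : 1 ≤ u := Real.one_le_rpow ht.1.le (by positivity)
    have h1 := hLL ι S hcard hS hdet a b u ha hb hu1
    have hun : u ^ (-(n : ℝ) / 4) = t ^ (-(1 / 2) : ℝ) := by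
      rw [hu, ← Real.rpow_mul ht0.le]
      congr 1
      field_simp
      norm_num
    rw [Real.mul_rpow hu0.le ha0.le, Real.mul_rpow hu0.le hb0.le, hun] at h1
    have hts : 0 < t ^ (-(1 / 2) : ℝ) := Real.rpow_pos_of_pos ht0 _
    have hss : t ^ (-(1 / 2) : ℝ) * t ^ (-(1 / 2) : ℝ) = t⁻¹ := by
      rw [← Real.rpow_add ht0, ← Real.rpow_neg_one]
      norm_num
    have hle : t ^ (-(1 / 2) : ℝ) ≤ A * t⁻¹ := by
      have h2 : t ^ (1 / 2 : ℝ) ≤ α := by
        rw [← hTs]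
        exact Real.rpow_le_rpow ht0.le htT (by norm_num)
      have h3 : t ^ (-(1 / 2) : ℝ) = t ^ (1 / 2 : ℝ) * t⁻¹ := by
        rw [← Real.rpow_neg_one t, ← Real.rpow_add ht0]
        norm_num
      rw [h3]
      exact mul_le_mul_of_nonneg_right (h2.trans (by rw [hA]; linarith)) (inv_pos.2 ht0).le
    calc (ts S u - 1) * t ^ (-(1 / 2) : ℝ)
        ≤ (C₁ * (1 + t ^ (-(1 / 2) : ℝ) * α + t ^ (-(1 / 2) : ℝ) * β)) *
          t ^ (-(1 / 2) : ℝ) := by
          refine mul_le_mul_of_nonneg_right ?_ hts.le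
          linarith
      _ = C₁ * t ^ (-(1 / 2) : ℝ) + C₁ * A * (t ^ (-(1 / 2) : ℝ) * t ^ (-(1 / 2) : ℝ)) := by
          rw [hA]
          ring
      _ ≤ C₁ * (A * t⁻¹) + C₁ * A * t⁻¹ := by
          rw [hss]
          have := mul_le_mul_of_nonneg_left hle hC₁.le
          linarith
      _ = 2 * C₁ * A * t⁻¹ := by ring
  -- second part
  have p2 : ∫⁻ t in Ioi m, ENNReal.ofReal ((ts S (t ^ (2 / (n : ℝ))) - 1) *
      t ^ (-(1 / 2) : ℝ)) ≤ ENNReal.ofReal (C₂ * (n : ℝ) ^ n * T * (2 * m ^ (-(1 / 2) : ℝ))) := by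
    rw [← lint2 (C₂ * (n : ℝ) ^ n * T) m (by positivity) hm1]
    refine setLIntegral_mono' measurableSet_Ioi fun t ht => ENNReal.ofReal_le_ofReal ?_
    have htm : m < t := ht
    have ht0 : 0 < t := lt_trans hm0 htm
    set x : ℝ := (t / T) ^ (2 / (n : ℝ)) with hx
    have htT : 1 ≤ t / T := by
      rw [le_div_iff₀ hT0]
      linarith
    have hx1 : 1 ≤ x := Real.one_le_rpow htT (by positivity)
    have hTa : T ^ (2 / (n : ℝ)) = a⁻¹ := by
      rw [hT, ← Real.rpow_mul ha0.le, ← Real.rpow_neg_one]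
      congr 1
      field_simp
    have hxa : t ^ (2 / (n : ℝ)) * a = x := by
      rw [hx, Real.div_rpow ht0.le hT0.le, hTa, div_inv_eq_mul]
    have h1 : a⁻¹ ≤ t ^ (2 / (n : ℝ)) := by
      rw [inv_eq_one_div, div_le_iff₀ ha0, hxa]
      exact hx1
    have h2 := hTA ι S hcard hS a (t ^ (2 / (n : ℝ))) ha h1
    rw [hxa] at h2
    have h3 : t / T ≤ x ^ n := by
      have h4 : x ^ n = (t / T) ^ (2 : ℝ) := by
        rw [hx, ← Real.rpow_natCast, ← Real.rpow_mul (by positivity)]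
        congr 1
        field_simp
      rw [h4]
      calc t / T = (t / T) ^ (1 : ℝ) := (Real.rpow_one _).symm
        _ ≤ (t / T) ^ (2 : ℝ) := Real.rpow_le_rpow_of_exponent_le htT (by norm_num)
    have h5 : Real.exp (-Real.pi * (x - 1)) ≤ (n : ℝ) ^ n * (T * t⁻¹) := by
      have h6 := pow_exp n hn x hx1
      have h7 : t / T * Real.exp (-Real.pi * (x - 1)) ≤ (n : ℝ) ^ n :=
        (mul_le_mul_of_nonneg_right h3 (Real.exp_pos _).le).trans h6
      have h8 : Real.exp (-Real.pi * (x - 1)) =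
          (t / T * Real.exp (-Real.pi * (x - 1))) * (T * t⁻¹) := by
        field_simp
      rw [h8]
      exact mul_le_mul_of_nonneg_right h7 (by positivity)
    have hts : 0 < t ^ (-(1 / 2) : ℝ) := Real.rpow_pos_of_pos ht0 _
    have h9 : t⁻¹ * t ^ (-(1 / 2) : ℝ) = t ^ (-(3 / 2) : ℝ) := by
      rw [← Real.rpow_neg_one t, ← Real.rpow_add ht0]
      norm_num
    calc (ts S (t ^ (2 / (n : ℝ))) - 1) * t ^ (-(1 / 2) : ℝ)
        ≤ (C₂ * ((n : ℝ) ^ n * (T * t⁻¹))) * t ^ (-(1 / 2) : ℝ) := by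
          refine mul_le_mul_of_nonneg_right (h2.trans ?_) hts.le
          exact mul_le_mul_of_nonneg_left h5 hC₂.le
      _ = C₂ * (n : ℝ) ^ n * T * (t⁻¹ * t ^ (-(1 / 2) : ℝ)) := by ring
      _ = C₂ * (n : ℝ) ^ n * T * t ^ (-(3 / 2) : ℝ) := by rw [h9]
  refine (add_le_add p1 p2).trans ?_
  have hlog0 : 0 ≤ Real.log m := Real.log_nonneg hm1
  rw [← ENNReal.ofReal_add (by positivity) (by positivity)]
  refine ENNReal.ofReal_le_ofReal ?_
  have hlog : Real.log m ≤ (n : ℝ) / 2 * |Real.log a| := by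
    rcases le_total 1 T with h | h
    · rw [hm, max_eq_right h, hT, Real.log_rpow ha0]
      have := neg_abs_le (Real.log a)
      nlinarith
    · rw [hm, max_eq_left h, Real.log_one]
      positivity
  have hpow : T * m ^ (-(1 / 2) : ℝ) ≤ A := by
    have h1 : m ^ (-(1 / 2) : ℝ) ≤ T ^ (-(1 / 2) : ℝ) :=
      Real.rpow_le_rpow_of_nonpos hT0 hmT (by norm_num)
    have h2 : T * T ^ (-(1 / 2) : ℝ) = T ^ (1 / 2 : ℝ) := by
      nth_rewrite 1 [← Real.rpow_one T]
      rw [← Real.rpow_add hT0]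
      norm_num
    calc T * m ^ (-(1 / 2) : ℝ) ≤ T * T ^ (-(1 / 2) : ℝ) := mul_le_mul_of_nonneg_left h1 hT0.le
      _ = α := by rw [h2, hTs]
      _ ≤ A := by rw [hA]; linarith
  have e1 : 2 * C₁ * A * Real.log m ≤ C₁ * n * |Real.log a| * A := by
    have := mul_le_mul_of_nonneg_left hlog (by positivity : 0 ≤ 2 * C₁ * A)
    linarith
  have e2 : C₂ * (n : ℝ) ^ n * T * (2 * m ^ (-(1 / 2) : ℝ)) ≤ 2 * (C₂ * (n : ℝ) ^ n) * A := by
    have := mul_le_mul_of_nonneg_left hpow (by positivity : 0 ≤ 2 * (C₂ * (n : ℝ) ^ n))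
    linarith
  have e3 : 0 ≤ C₁ * n * A := by positivity
  have e4 : 0 ≤ 2 * (C₂ * (n : ℝ) ^ n) * |Real.log a| * A := by positivity
  calc 2 * C₁ * A * Real.log m + C₂ * (n : ℝ) ^ n * T * (2 * m ^ (-(1 / 2) : ℝ))
      ≤ C₁ * n * |Real.log a| * A + 2 * (C₂ * (n : ℝ) ^ n) * A := add_le_add e1 e2
    _ ≤ (C₁ * n + 2 * (C₂ * (n : ℝ) ^ n)) * (1 + |Real.log a|) * A := by nlinarith

end Pool.Agent.H69.CG
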