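import Pool.Agent.H55.CG.Targets

/-!
# The gap of the slope (MP_65efe8_pr), rows VSU and VTL
-/

set_option autoImplicit false

open MeasureTheory ProbabilityTheory Filter Topology
open Pool.Agent.H95 Pool.Agent.H95.Cop Pool.Agent.H55.CG

namespace Pool.Agent.H69.CG

private theorem pz_conv (hPZS : T_PZS) (K : PMF ℕ) (x : ℕ → ℝ) (n c : ℕ) (hn : 1 ≤ n) :
    pz K x n c = ∑ j ∈ Finset.Ico 1 (n + 1), kk K j * wt x c (c + j) * pz K x (n - j) (c + j) := by
  obtain ⟨m, rfl⟩ : ∃ m, n = m + 1 := ⟨n - 1, by omega⟩
  rw [(hPZS K x c m 0).2.1, Finset.sum_Ico_eq_sum_range]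
  apply Finset.sum_congr (by simp)
  intro j _
  have e1 : 1 + j = j + 1 := by omega
  have e2 : m + 1 - (j + 1) = m - j := by omega
  rw [e1, e2]

private theorem gen (hPZS : T_PZS) (K : PMF ℕ) (x : ℕ → ℝ) (R F : ℕ → ℝ) (L : ℕ) (h0 : 0 ≤ F L)
    (hs : ∀ c, c < L → R c + ∑ b ∈ Finset.Ico (c + 1) L, kk K (b - c) * wt x c b * F b ≤ F c) :
    ∀ d c : ℕ, c + d = L → ∑ a ∈ Finset.Ico c L, pz K x (a - c) c * R a ≤ F c := by
  intro d
  induction d using Nat.strong_induction_on with
  | _ d ih =>
    intro c hcd
    rcases Nat.eq_zero_or_pos d with hd | hd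
    · have h1 : Finset.Ico c L = ∅ := by rw [Finset.Ico_eq_empty_iff]; omega
      have h2 : c = L := by omega
      rw [h1, Finset.sum_empty, h2]
      exact h0
    · refine le_trans ?_ (hs c (by omega))
      have h1 : ∑ b ∈ Finset.Ico (c + 1) L, kk K (b - c) * wt x c b *
          (∑ a ∈ Finset.Ico b L, pz K x (a - b) b * R a) ≤
          ∑ b ∈ Finset.Ico (c + 1) L, kk K (b - c) * wt x c b * F b := by
        apply Finset.sum_le_sum
        intro b hb
        rw [Finset.mem_Ico] at hb
        have h2 := ih (L - b) (by omega) b (by omega)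
        exact mul_le_mul_of_nonneg_left h2 (mul_nonneg (kk_nonneg K _) (wt_pos x c b).le)
      have h3 : ∑ b ∈ Finset.Ico (c + 1) L, kk K (b - c) * wt x c b *
          (∑ a ∈ Finset.Ico b L, pz K x (a - b) b * R a) =
          ∑ a ∈ Finset.Ico (c + 1) L, pz K x (a - c) c * R a := by
        simp_rw [Finset.mul_sum]
        have h4 : ∑ b ∈ Finset.Ico (c + 1) L, ∑ a ∈ Finset.Ico b L,
            kk K (b - c) * wt x c b * (pz K x (a - b) b * R a) =
            ∑ a ∈ Finset.Ico (c + 1) L, ∑ b ∈ Finset.Ico (c + 1) (a + 1),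
            kk K (b - c) * wt x c b * (pz K x (a - b) b * R a) := by
          apply Finset.sum_comm'
          intro b a
          simp only [Finset.mem_Ico]
          omega
        rw [h4]
        apply Finset.sum_congr rfl
        intro a ha
        rw [Finset.mem_Ico] at ha
        rw [pz_conv hPZS K x (a - c) c (by omega), Finset.sum_mul]
        have h5 : Finset.Ico (c + 1) (a + 1) = Finset.Ico (1 + c) ((a - c + 1) + c) := by
          congr 1 <;> omega
        rw [h5, ← Finset.sum_Ico_add' (fun b => kk K (b - c) * wt x c b *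
              (pz K x (a - b) b * R a)) 1 (a - c + 1) c]
        apply Finset.sum_congr rfl
        intro j hj
        rw [Finset.mem_Ico] at hj
        have e1 : j + c - c = j := by omega
        have e2 : a - (j + c) = a - c - j := by omega
        rw [e1, e2, add_comm j c]
        ring
      rw [h3] at h1
      rw [Finset.sum_eq_sum_Ico_succ_bot (show c < L by omega)]
      rw [Nat.sub_self, (hPZS K x c 0 0).1, one_mul]
      linarith

theorem pf_VSU (hPZS : T_PZS) : T_VSU := by
  intro K hK0 N x L hL B hB c hc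
  refine gen hPZS K x (RR K N x B) (V K N x) L (V_pos K N x L).le (fun c hc => ?_) (L - c) c
    (by omega)
  refine le_trans ?_ (V_super K hK0 N x c (by omega))
  have hsub : (Finset.Ico (c + 1) L) ∪ B ⊆ Finset.Ico c N := by
    intro b hb
    rw [Finset.mem_union] at hb
    rcases hb with hb | hb
    · rw [Finset.mem_Ico] at hb ⊢; omega
    · have := hB hb
      rw [Finset.mem_Ico] at this ⊢; omega
  have hdisj : Disjoint (Finset.Ico (c + 1) L) B := by
    rw [Finset.disjoint_left]
    intro b hb hb'
    have := hB hb'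
    rw [Finset.mem_Ico] at this hb
    omega
  refine le_trans ?_ (Finset.sum_le_sum_of_subset_of_nonneg hsub (fun b _ _ => ?_))
  · rw [Finset.sum_union hdisj, add_comm]
    exact le_of_eq rfl
  · have := kk_nonneg K (b - c)
    have := wt_pos x c b
    have := V_pos K N x b
    positivity

theorem pf_VTL (hPZS : T_PZS) (_hTLM : T_TLM) : T_VTL := by
  intro K hK0 N x c hc
  refine gen hPZS K x (fun a => tailK K (N - a) / 2) (V K N x) N (V_pos K N x N).le
    (fun c hc => ?_) (N - c) c (by omega)
  show tailK K (N - c) / 2 + ∑ b ∈ Finset.Ico (c + 1) N, kk K (b - c) * wt x c b * V K N x b ≤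
    V K N x c
  have h0 : ∑ b ∈ Finset.Ico (c + 1) N, kk K (b - c) * wt x c b * V K N x b ≤
      ∑ b ∈ Finset.Ico c N, kk K (b - c) * wt x c b * V K N x b := by
    apply Finset.sum_le_sum_of_subset_of_nonneg
    · apply Finset.Ico_subset_Ico_left
      omega
    · intro b _ _
      have := kk_nonneg K (b - c)
      have := wt_pos x c b
      have := V_pos K N x b
      positivity
  refine le_trans (add_le_add le_rfl h0) ?_
  unfold V
  rw [W_sum K hK0 (N - c) (shift c x)]
  have h1 : ∑ b ∈ Finset.Ico c N, kk K (b - c) * wt x c b * W K (N - b) (shift b x) =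
      ∑ n ∈ Finset.range (N - c), kk K n * ((1 + Real.exp (H (shift c x) 0 n)) / 2) *
        W K (N - c - n) (shift n (shift c x)) := by
    rw [Finset.sum_Ico_eq_sum_range]
    apply Finset.sum_congr rfl
    intro n hn
    have e1 : c + n - c = n := by omega
    have e2 : N - (c + n) = N - c - n := by omega
    rw [e1, e2, H_shift, shift_shift, wt, zero_add, add_comm c n]
  rw [h1]
  have h2 := tailK_nonneg K (N - c)
  have h3 := Real.exp_pos (H (shift c x) 0 (N - c))
  have h4 : tailK K (N - c) / 2 ≤
      tailK K (N - c) * ((1 + Real.exp (H (shift c x) 0 (N - c))) / 2) := by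
    nlinarith
  linarith

end Pool.Agent.H69.CG
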